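import Pool.Agent.LE.StmtsM

/-!
# PRB: the probability of the operator bound
-/

set_option autoImplicit false

open MeasureTheory ProbabilityTheory Function Filter

open scoped ENNReal BigOperators Topology NNReal

noncomputable section

namespace Pool.Agent.LE.MN.H8

open Pool.Agent.Anderson hiding box mem_box card_box
open Pool.Agent.Loc Pool.Agent.Mob Pool.Agent.Helper54.Bal
  Pool.Agent.Helper96.EXP Pool.Agent.BED

/-- the standard variables -/
def xi {d : ℕ} (σ : ℝ) (y : Site d) (V : Site d → ℝ) : ℝ := V y / σ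

theorem meas_xi {d : ℕ} (σ : ℝ) (y : Site d) : Measurable (xi σ y) := by
  unfold xi
  fun_prop

theorem gl_div {σ : ℝ} (hσ : σ ≠ 0) : (gl σ).map (fun t => t / σ) = gaussianReal 0 1 := by
  unfold gl
  rw [Measure.map_map (by fun_prop) (by fun_prop)]
  have : ((fun t : ℝ => t / σ) ∘ fun t => σ * t) = id := by
    funext t
    simp only [Function.comp, id]
    field_simp
  rw [this, Measure.map_id]

theorem law_xi {d : ℕ} {σ : ℝ} (hσ : σ ≠ 0) (y : Site d) :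
    (PP d (gl σ)).map (xi σ y) = gaussianReal 0 1 := by
  have h1 : (PP d (gl σ)).map (fun V : Site d → ℝ => V y) = gl σ :=
    (measurePreserving_eval_infinitePi (fun _ : Site d => gl σ) y).map_eq
  have h2 : xi σ y = (fun t => t / σ) ∘ fun V : Site d → ℝ => V y := by
    funext V
    rfl
  rw [h2, ← Measure.map_map (by fun_prop) (by fun_prop)]
  change Measure.map (fun t => t / σ) ((PP d (gl σ)).map (fun V : Site d → ℝ => V y)) = _
  rw [h1, gl_div hσ]

theorem ind_xi {d : ℕ} (σ : ℝ) : iIndepFun (xi (d := d) σ) (PP d (gl σ)) := by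
  have h := iIndepFun_infinitePi (P := fun _ : Site d => gl σ) (X := fun _ t => t / σ)
    (fun _ => by fun_prop)
  exact h

theorem nsq_smul {n : Type*} [Fintype n] (a : ℂ) (v : n → ℂ) :
    nsq (a • v) = ‖a‖ ^ 2 * nsq v := by
  unfold nsq
  rw [Finset.mul_sum]
  refine Finset.sum_congr rfl fun i _ => ?_
  rw [Pi.smul_apply, smul_eq_mul, norm_mul, mul_pow]

theorem XM_smul {n : Type*} [Fintype n] [DecidableEq n] (C : Matrix n n ℂ) (D : n → ℝ) (a : ℝ) :
    XM C (fun y => a * D y) = (a : ℂ) • XM C D := by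
  rw [XM_eq_sum, XM_eq_sum, Finset.smul_sum]
  refine Finset.sum_congr rfl fun y _ => ?_
  rw [smul_smul]
  push_cast
  rfl

/-- the good event gives the bound -/
theorem good {d : ℕ} {σ τ r : ℝ} (hσ : σ ≠ 0) (hτ : 0 < τ) {Λ : Finset (Site d)}
    {C : Matrix Λ Λ ℂ} {V : Site d → ℝ}
    (h1 : ∀ y ∈ Λ, |xi σ y V| ≤ r)
    (h2 : ∀ a : Λ → ℂ, nsq (Matrix.mulVec (XM C (fun y => zt (σ / (2 * τ)) (|σ| * r / (2 * τ))
      (xi σ) V y)) a) ≤ 1 / 4 * nsq a) (v : Λ → ℂ) :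
    nsq (Matrix.mulVec (XM C (fun y => V y)) v) ≤ τ ^ 2 * nsq v := by
  have e1 : (fun y : Λ => zt (σ / (2 * τ)) (|σ| * r / (2 * τ)) (xi σ) V y) =
      fun y : Λ => (1 / (2 * τ)) * V y := by
    funext y
    have hy := h1 y y.2
    have e2 : σ / (2 * τ) * xi σ (y : Site d) V = (1 / (2 * τ)) * V y := by
      unfold xi
      field_simp
    unfold zt
    rw [tau_eq, e2]
    rw [abs_mul, abs_div, abs_of_pos (by positivity : 0 < 2 * τ), div_mul_eq_mul_div]
    apply div_le_div_of_nonneg_right _ (by positivity)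
    exact mul_le_mul_of_nonneg_left hy (abs_nonneg _)
  have h3 := h2 v
  rw [e1, XM_smul C (fun y : Λ => V y) (1 / (2 * τ)), Matrix.smul_mulVec, nsq_smul,
    Complex.norm_real, Real.norm_eq_abs, sq_abs] at h3
  have h4 : 0 < 2 * τ := by positivity
  have h5 : (1 / (2 * τ)) ^ 2 * nsq (Matrix.mulVec (XM C (fun y => V y)) v) * (4 * τ ^ 2) ≤
      1 / 4 * nsq v * (4 * τ ^ 2) := mul_le_mul_of_nonneg_right h3 (by positivity)
  have h6 : (1 / (2 * τ)) ^ 2 * nsq (Matrix.mulVec (XM C (fun y => V y)) v) * (4 * τ ^ 2) =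
      nsq (Matrix.mulVec (XM C (fun y => V y)) v) := by
    field_simp
    ring
  rw [h6] at h5
  linarith

theorem prb : PrbStmt := by
  intro d A hd hA
  have hd' : (3 : ℝ) ≤ d := by exact_mod_cast hd
  have hpi := Real.pi_pos
  have hpi3 := Real.pi_gt_three
  obtain ⟨k, hk⟩ : ∃ k : ℝ, k = A * d + A + 4 := ⟨_, rfl⟩
  have hAd : 3 ≤ A * d := by nlinarith
  have hk8 : 8 ≤ k := by rw [hk]; linarith
  have hC1 : 1 ≤ 24 * k ^ 2 * (1 + 1024 * Real.pi) := by nlinarith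
  refine ⟨24 * k ^ 2 * (1 + 1024 * Real.pi), hC1, ?_⟩
  intro σ E η τ R x hη hσ hσ2 hη1 hτ hτ1 hC hR
  have hσ0 : 0 < |σ| := abs_pos.2 hσ
  have hlog : 0 ≤ Real.log (1 / |σ|) := by
    apply Real.log_nonneg
    rw [le_div_iff₀ hσ0]
    linarith
  have hlη : 0 ≤ Real.log (1 / η) := Real.log_nonneg (by rw [le_div_iff₀ hη]; linarith)
  obtain ⟨l, hl⟩ : ∃ l : ℝ, l = 1 + Real.log (1 / |σ|) := ⟨_, rfl⟩
  obtain ⟨m, hm⟩ : ∃ m : ℝ, m = 1 + Real.log (1 / η) := ⟨_, rfl⟩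
  rw [← hl, ← hm] at hC
  have hl1 : 1 ≤ l := by rw [hl]; linarith
  have hm1 : 1 ≤ m := by rw [hm]; linarith
  have hkl : 8 ≤ k * l := by nlinarith
  obtain ⟨r, hr⟩ : ∃ r : ℝ, r = Real.sqrt (2 * (k * l)) := ⟨_, rfl⟩
  have hr0 : 0 ≤ r := by rw [hr]; exact Real.sqrt_nonneg _
  have hr2 : r ^ 2 = 2 * (k * l) := by rw [hr, Real.sq_sqrt (by linarith)]
  obtain ⟨p, hp⟩ : ∃ p : ℕ, p = ⌈k * l⌉₊ := ⟨_, rfl⟩
  have hp1 : k * l ≤ p := by rw [hp]; exact Nat.le_ceil _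
  have hp2 : (p : ℝ) ≤ 2 * (k * l) := by
    have := Nat.ceil_lt_add_one (by linarith : 0 ≤ k * l)
    rw [← hp] at this
    linarith
  have hp3 : 1 ≤ p := by
    have : (1 : ℝ) ≤ p := by linarith
    exact_mod_cast this
  have hs : 0 ≤ |σ| * r / (2 * τ) := by positivity
  have hbad := prob_bad (P := PP d (gl σ)) (meas_xi (d := d) σ) (law_xi hσ) (ind_xi σ)
    (σ / (2 * τ)) hs (box x R) (C := Csq (box x R) E η hη) (Csq_herm _ E _ hη)
    (κ := (1 + 1024 * Real.pi) * m) (L := η⁻¹) (by positivity) (by positivity)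
    (by
      intro y
      rw [Csq_sq, Kmat_diag, Complex.ofReal_re, hm]
      exact kap_le hd _ hη hη1)
    (by
      intro v
      rw [Csq_sq]
      exact Kmat_le _ hη v) hp3
  have hV : PP d (gl σ) {V | ∃ y ∈ box x R, r < |xi σ y V|} ≤
      ENNReal.ofReal ((2 * R + 1) ^ d * (2 * Real.exp (-(r ^ 2 / 2)))) := by
    have : {V : Site d → ℝ | ∃ y ∈ box x R, r < |xi σ y V|} ⊆
        ⋃ y ∈ box x R, {V | r < |xi σ y V|} := by
      rintro V ⟨y, hy, h⟩
      rw [Set.mem_iUnion₂]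
      exact ⟨y, hy, h⟩
    refine (measure_mono this).trans ((measure_biUnion_finset_le _ _).trans ?_)
    refine (Finset.sum_le_sum fun y _ => gauss_tail (law_xi hσ y) hr0).trans ?_
    rw [Finset.sum_const, card_box, nsmul_eq_mul, nat_mul_ofReal]
    push_cast
    rfl
  have hsub : {V : Site d → ℝ | ¬ ∀ v : (box x R) → ℂ,
      nsq (Matrix.mulVec (XM (Csq (box x R) E η hη) (fun y => V y)) v) ≤ τ ^ 2 * nsq v} ⊆
      {V | ∃ y ∈ box x R, r < |xi σ y V|} ∪
      {V | ¬ ∀ a : (box x R) → ℂ, nsq (Matrix.mulVec (XM (Csq (box x R) E η hη)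
        (fun y => zt (σ / (2 * τ)) (|σ| * r / (2 * τ)) (xi σ) V y)) a) ≤ 1 / 4 * nsq a} := by
    intro V hV
    by_contra hcon
    rw [Set.mem_union, not_or] at hcon
    obtain ⟨hc1, hc2⟩ := hcon
    apply hV
    have h1 : ∀ y ∈ box x R, |xi σ y V| ≤ r := by
      intro y hy
      by_contra h
      push Not at h
      exact hc1 ⟨y, hy, h⟩
    have h2 : ∀ a : (box x R) → ℂ, nsq (Matrix.mulVec (XM (Csq (box x R) E η hη)
        (fun y => zt (σ / (2 * τ)) (|σ| * r / (2 * τ)) (xi σ) V y)) a) ≤ 1 / 4 * nsq a := by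
      by_contra h
      exact hc2 h
    exact good hσ hτ h1 h2
  refine (measure_mono hsub).trans ((measure_union_le _ _).trans ((add_le_add hV hbad).trans ?_))
  rw [card_box, ← ENNReal.ofReal_add (by positivity) (by positivity)]
  apply ENNReal.ofReal_le_ofReal
  -- the numbers
  have hexp : Real.exp (-(k * l)) = Real.exp (-k) * |σ| ^ k := by
    rw [Real.rpow_def_of_pos hσ0, ← Real.exp_add, hl, Real.log_div one_ne_zero hσ0.ne',
      Real.log_one]
    congr 1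
    ring
  have hx : 8 * (p : ℝ) * ((|σ| * r / (2 * τ)) ^ 2 * ((1 + 1024 * Real.pi) * m) * η⁻¹) ≤ 1 / 3 := by
    have e1 : (|σ| * r / (2 * τ)) ^ 2 = σ ^ 2 * (k * l) / (2 * τ ^ 2) := by
      rw [div_pow, mul_pow, sq_abs, hr2]
      field_simp
    rw [e1]
    have e2 : 8 * (p : ℝ) * (σ ^ 2 * (k * l) / (2 * τ ^ 2) * ((1 + 1024 * Real.pi) * m) * η⁻¹) ≤
        8 * (2 * (k * l)) *
          (σ ^ 2 * (k * l) / (2 * τ ^ 2) * ((1 + 1024 * Real.pi) * m) * η⁻¹) := by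
      apply mul_le_mul_of_nonneg_right _ (by positivity)
      linarith
    refine e2.trans ?_
    have e3 : 8 * (2 * (k * l)) *
          (σ ^ 2 * (k * l) / (2 * τ ^ 2) * ((1 + 1024 * Real.pi) * m) * η⁻¹) =
        (24 * k ^ 2 * (1 + 1024 * Real.pi) * σ ^ 2 * l ^ 2 * m) / (τ ^ 2 * η) / 3 := by
      field_simp
      ring
    rw [e3]
    have e4 : (24 * k ^ 2 * (1 + 1024 * Real.pi) * σ ^ 2 * l ^ 2 * m) / (τ ^ 2 * η) ≤ 1 := by
      rw [div_le_one (by positivity)]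
      exact hC
    linarith
  have hx0 : 0 ≤ 8 * (p : ℝ) * ((|σ| * r / (2 * τ)) ^ 2 * ((1 + 1024 * Real.pi) * m) * η⁻¹) := by
    positivity
  have he1 : 1 / 3 ≤ Real.exp (-1) := by
    rw [Real.exp_neg, ← one_div]
    apply one_div_le_one_div_of_le (Real.exp_pos _)
    have := Real.exp_one_lt_d9
    linarith
  have hxp : (8 * (p : ℝ) * ((|σ| * r / (2 * τ)) ^ 2 * ((1 + 1024 * Real.pi) * m) * η⁻¹)) ^ p ≤
      Real.exp (-(k * l)) := by
    calc _ ≤ (Real.exp (-1)) ^ p := pow_le_pow_left₀ hx0 (hx.trans he1) p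
      _ = Real.exp (-(p : ℝ)) := by
        rw [← Real.exp_nat_mul]
        congr 1
        ring
      _ ≤ _ := Real.exp_le_exp.2 (by linarith)
  have hr3 : Real.exp (-(r ^ 2 / 2)) = Real.exp (-(k * l)) := by
    rw [hr2]
    congr 1
    ring
  rw [hr3]
  have hRd : (2 * (R : ℝ) + 1) ^ d ≤ |σ| ^ (-(A * d)) := by
    calc (2 * (R : ℝ) + 1) ^ d ≤ (|σ| ^ (-A)) ^ d := pow_le_pow_left₀ (by positivity) hR d
      _ = |σ| ^ (-(A * d)) := by
        rw [← Real.rpow_natCast, ← Real.rpow_mul hσ0.le]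
        congr 1
        ring
  have h3 : 3 * Real.exp (-k) ≤ 1 := by
    have h4 : Real.exp (-k) ≤ 1 / 3 := by
      have h5 : Real.exp (-k) ≤ Real.exp (-2) := Real.exp_le_exp.2 (by linarith)
      have h6 : Real.exp (-2) ≤ 1 / 3 := by
        rw [Real.exp_neg, ← one_div]
        apply one_div_le_one_div_of_le (by norm_num)
        have h7 := Real.add_one_le_exp (2 : ℝ)
        linarith
      exact h5.trans h6
    linarith
  have hσk : |σ| ^ (-(A * d)) * |σ| ^ k ≤ |σ| ^ A := by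
    rw [← Real.rpow_add hσ0]
    apply Real.rpow_le_rpow_of_exponent_ge hσ0 (by linarith)
    rw [hk]
    linarith
  have hcast : (((2 * R + 1) ^ d : ℕ) : ℝ) = (2 * (R : ℝ) + 1) ^ d := by push_cast; rfl
  rw [hcast]
  have hE0 : 0 ≤ Real.exp (-(k * l)) := (Real.exp_pos _).le
  calc (2 * (R : ℝ) + 1) ^ d * (2 * Real.exp (-(k * l))) + (2 * (R : ℝ) + 1) ^ d *
        (8 * (p : ℝ) * ((|σ| * r / (2 * τ)) ^ 2 * ((1 + 1024 * Real.pi) * m) * η⁻¹)) ^ p
      ≤ (2 * (R : ℝ) + 1) ^ d * (2 * Real.exp (-(k * l))) +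
        (2 * (R : ℝ) + 1) ^ d * Real.exp (-(k * l)) := by
        gcongr
    _ = (2 * (R : ℝ) + 1) ^ d * (3 * Real.exp (-(k * l))) := by ring
    _ ≤ |σ| ^ (-(A * d)) * (3 * Real.exp (-(k * l))) :=
        mul_le_mul_of_nonneg_right hRd (by positivity)
    _ = (3 * Real.exp (-k)) * (|σ| ^ (-(A * d)) * |σ| ^ k) := by rw [hexp]; ring
    _ ≤ 1 * |σ| ^ A := mul_le_mul h3 hσk (by positivity) (by norm_num)
    _ = |σ| ^ A := one_mul _

end Pool.Agent.LE.MN.H8
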